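import Pool.Agent.Helper49.HW.SDefs
import Pool.Agent.Helper49.HW.Final

/-!
# MP_074879_pr, Q1: intermediate orders of height times width

For every (measurable) slowly varying function `f` with `1 ≪ f(n) ≪ log n` there is an
offspring distribution `μ` such that the product of the height and the width of the
`μ`-Bienaymé tree conditioned to have `n` vertices is of order `n f(n)` in probability.
-/

open HW Filter Topology

namespace Pool.Agent.Results.MP_074879_pr.HeightWidthOrders

theorem result (f : ℝ → ℝ) (hpos : ∀ x > 0, 0 < f x) (hmeas : Measurable f)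
    (hslow : ∀ lam > 0, Tendsto (fun x => f (lam * x) / f x) atTop (𝓝 1))
    (hinf : Tendsto (fun n : ℕ => f n) atTop atTop)
    (hlog : Tendsto (fun n : ℕ => f n / Real.log n) atTop (𝓝 0)) :
    ∃ μ : ℕ → ℝ, (∀ k, 0 ≤ μ k) ∧ HasSum μ 1 ∧ (∀ n, 1 ≤ n → 0 < sizeProb μ n) ∧
      ∀ δ > 0, ∃ C > 0, ∀ n : ℕ, 2 ≤ n →
        1 - δ ≤ condProb μ n (fun T => (n * f n) / C ≤ treeHeight T * treeWidth T ∧
          (treeHeight T * treeWidth T : ℝ) ≤ C * (n * f n)) :=
  height_width_slowly_varying f hpos hmeas hslow hinf hlog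

end Pool.Agent.Results.MP_074879_pr.HeightWidthOrders
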